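import Pool.Agent.U365.POW.E
import Pool.Agent.Results.MP_8865d3_nt.MonomialWindows

/-!
# Vojta's conjecture with multiplier ideals on Fermat intersections above all points with height near `s(m)`, `m - φ(m)` or `α m + β f(m)`

Let `a_0, …, a_{q-1}` be linear forms in `n + 1` variables over a number field `K`, any `n + 1` of them linearly
independent, `κ ≥ 0`, `c₀` real and `s = exponent(n, q, κ) / (n + 1)`, the smaller one of `κ (1 - binom(q - n, n + 1)
/ binom(q, n + 1)) / (n + 1)` and `1 - n (q - κ) / (q (q - 1))`; it is less than one for `κ < q`. The points `(y_i)`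
with `(y_i ^ m) = (a_i(x))` for some `x ∈ ℙ^n` form the Fermat intersection `X_m`. Let `s(m)` be the sum of the proper
divisors of `m`. Let `G` have steps bounded below by a positive constant and growth at most `v ^ d`, for example `G v
= v`, `κ ≥ 0`, `c₀` real, `θ ≥ 0` and `e = d s + θ < 1`. For a set of `m` of lower density at least `1 - e`: for ALL
points `x ∈ ℙ^n(K)` off the hyperplanes for which `H_K(x) ^ (n + 1)` differs from `G (s(m))` by at most `s(m) ^ θ`,
ALL `m ≥ 1`, ALL points `P` of `X_m` above `x`, over any number field `L`, ALL monomial ideals `I` and ALL finite sets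
`S` of primes `(κ m - q) h(P) + ∑_{v ∈ S ∪ {∞}} (λ_I - λ_{I⁻})(P, v) ≤ d(L) + ∑_{p ∈ S} log p + c₀`; and the same
holds for `m - φ(m)` in place of `s(m)`. More precisely this holds for almost all `m` with a divisor `≥ m ^ (e + ρ)`
which is a prime or the product of two different primes, and for the values `g = α m + β f(m)` of multiplicative
functions with `f p = p + c` at the primes, uniformly in `|α|, |β| ≤ N ^ δ` and with a power saving in the number of
the exceptional `m`.

For `κ = q - n - 1 - ε` the first term is `h_K(P) - ε m h(P)`. Proof. The starting theorem `MonomialIdeals` of this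
problem bounds the number of the exceptional points `x` with `H_K(x) ^ (n + 1) ≤ X` by `X ^ (s + ε)` (in the form
`MonomialWindows.count`). Let `m = k v p` with large primes `p ≠ v`. Then `g = A v p + B (v + p) + B c`, `A = α k + β
f(k)`, `B = β c f(k)`, and so `(A v + B) (A p + B) = A g + B² - A B c`: for given `g`, `k`, `α`, `β` there are only
`N^o(1)` possibilities for `p` and `v` (tool `Pool.Agent.U365.POW`).
-/

set_option autoImplicit false

namespace Pool.Agent.Results.MP_8865d3_nt.AliquotValues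

open NumberField IsDedekindDomain LinearAlgebra.Projectivization
open MonomialIdeals (lin baseHeight height proximity logDisc exponent exceptional)
open MonomialWindows (count expo_nonneg)
open Pool.Agent.U365.POW (Values Dens values_set values_mono dens_mono)
open Pool.Agent.N733.TG (Expanding)

/-- for all `x ∈ ℙ^n(K)` off the hyperplanes with `|H_K(x) ^ (n + 1) - G v| ≤ v ^ θ`, all `m ≥ 1`, all points `y` of `X_m` above
`x`, over any number field `L`, all monomial ideals `I` and all finite sets `S` of primes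
`(κ m - q) h(y) + ∑_{v ∈ S ∪ {∞}} (λ_I - λ_{I⁻})(y, v) ≤ d(L) + ∑_{p ∈ S} log p + c₀` -/
def Near (K : Type) [Field K] [NumberField K] (n q : ℕ) (a : Fin q → Fin (n + 1) → K) (κ c₀ : ℝ) (G : ℕ → ℝ) (θ : ℝ)
    (v : ℕ) : Prop :=
  ∀ x : ℙ K (Fin (n + 1) → K), (∀ i, lin (a i) x.rep ≠ 0) → |x.mulHeight ^ (n + 1) - G v| ≤ (v : ℝ) ^ θ →
    ∀ (m : ℕ) (L : Type) [Field L] [NumberField L] [Algebra K L] (y : Fin q → L) (t : L)
      (I : Finset (Fin q → ℕ)) (S : Finset ℕ), 1 ≤ m → t ≠ 0 →
      (∀ i, y i ^ m = t * algebraMap K L (lin (a i) x.rep)) → I.Nonempty → (∀ p ∈ S, p.Prime) →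
        (κ * m - q) * height y + proximity S y I ≤ logDisc L + ∑ p ∈ S, Real.log p + c₀

lemma near_of {K : Type} [Field K] [NumberField K] {n q : ℕ} {a : Fin q → Fin (n + 1) → K} {κ c₀ θ : ℝ} {G : ℕ → ℝ} {v : ℕ}
    (h : ∀ t ∈ (⋃ B : ℝ, exceptional a κ c₀ B), ¬ |t.mulHeight ^ (n + 1) - G v| ≤ (v : ℝ) ^ θ) :
    Near K n q a κ c₀ G θ v := by
  intro x hx hw m L _ _ _ y t I S hm ht hy hI hS
  by_contra hcon
  push Not at hcon
  exact h x (Set.mem_iUnion.2 ⟨Real.exp (baseHeight x), hx, le_rfl, m, L, _, _, _, y, t, I, S, hm, ht, hy, hI, hS, hcon⟩) hw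

/-- **Theorem.** Let `G` have steps `≥ a > 0` and growth at most `v ^ d`, `κ ≥ 0`, `c₀` real, `θ ≥ 0` and `e = d s + θ <
1`. For every `ρ > 0` the property `Near` holds for the values of similar functions as the aliquot sum (`Values`: for
`s(m)`, for `m - φ(m)` and for all `α m + β f(m)`, for almost all the `m` with a divisor `≥ m ^ (e + ρ)` which is a
prime or the product of two different primes), and it holds for `s(m)` and `m - φ(m)` for a set of `m` of lower
density at least `1 - e`. -/
theorem result : ∀ (G : ℕ → ℝ) (d : ℝ), Expanding G d → ∀ (K : Type) [Field K] [NumberField K] (n q : ℕ) (a : Fin q → Fin (n + 1) → K) (κ c₀ : ℝ) (θ : ℝ),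
    1 ≤ n → n + 1 ≤ q →
      (∀ I : Finset (Fin q), I.card = n + 1 → LinearIndependent K (fun i : I => a i)) → 0 ≤ κ → 0 ≤ θ → d * (exponent n q κ / (n + 1)) + θ < 1 →
    (∀ ρ : ℝ, 0 < ρ → Values (d * (exponent n q κ / (n + 1)) + θ + ρ) (Near K n q a κ c₀ G θ)) ∧
      Dens (1 - (d * (exponent n q κ / (n + 1)) + θ)) (Near K n q a κ c₀ G θ) := by
  intro G d hG K _ _ n q a κ c₀ θ hn hq ha hκ hθ h1
  obtain ⟨h2, h3⟩ := values_set (⋃ B : ℝ, exceptional a κ c₀ B) (fun x => x.mulHeight ^ (n + 1)) hG (s := (exponent n q κ / (n + 1))) (div_nonneg (expo_nonneg hn hq hκ) (by positivity)) hθ h1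
    (fun ε hε => count K hn hq a ha κ c₀ ε hκ hε)
  have hm : ∀ g : ℕ, (∀ t, |t.mulHeight ^ (n + 1) - G g| ≤ (g : ℝ) ^ θ → t ∉ (⋃ B : ℝ, exceptional a κ c₀ B)) → Near K n q a κ c₀ G θ g :=
    fun g hg => near_of (fun t ht hw => hg t hw ht)
  exact ⟨fun ρ hρ => values_mono (h2 ρ hρ) hm, dens_mono h3 le_rfl hm⟩

end Pool.Agent.Results.MP_8865d3_nt.AliquotValues
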