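import Pool.Agent.U536.CF.F
import Pool.Agent.Results.MP_8865d3_nt.MonomialWindows

/-!
# Vojta's conjecture with multiplier ideals on Fermat intersections above all points with height near an integer with a large common factor with a value of `f`

Let `a_0, …, a_{q-1}` be linear forms in `n + 1` variables over a number field `K`, any `n + 1` of them linearly
independent, `κ ≥ 0`, `c₀` real and `s = exponent(n, q, κ) / (n + 1)`, the smaller one of `κ (1 - binom(q - n, n + 1)
/ binom(q, n + 1)) / (n + 1)` and `1 - n (q - κ) / (q (q - 1))`; it is less than one for `κ < q`. The points `(y_i)`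
with `(y_i ^ m) = (a_i(x))` for some `x ∈ ℙ^n` form the Fermat intersection `X_m`. Let `f` be a positive
multiplicative function of at most polynomial growth such that `f p ≤ M p` for the large primes `p`, with different
values at different large primes; for example Euler's function or the sum of the divisors. Let `G` have steps bounded
below by a positive constant and growth at most `v^d`, for example `α v^d`. Let `b < 1` and `0 ≤ c < 2 b - 1`. For all
`m ≤ N` but `N exp (-(log N)^c)`, for EVERY integer `w ≥ exp ((log N)^b)` with `gcd(w, f(m)) ≥ w^ρ`: for ALL points `x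
∈ ℙ^n(K)` off the hyperplanes for which `H_K(x) ^ (n + 1)` differs from `G w` by at most `w ^ θ`, ALL `m ≥ 1`, ALL
points `P` of `X_m` above `x`, over any number field `L`, ALL monomial ideals `I` and ALL finite sets `S` of primes
`(κ m - q) h(P) + ∑_{v ∈ S ∪ {∞}} (λ_I - λ_{I⁻})(P, v) ≤ d(L) + ∑_{p ∈ S} log p + c₀`, if `κ ≥ 0`, `c₀` real, `θ ≥ 0`
and `d s + θ < ρ ≤ 1`. The integers `w` include all large divisors of `f(m)` and their multiples by small integers;
for Euler's function, the orders of the elements of the group of units modulo `m`.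

For `κ = q - n - 1 - ε` the first term is `h_K(P) - ε m h(P)`. Proof. The tool `Pool.Agent.U536.CF` bounds the number
of the `m ≤ N` for which such a `w` lies in a given set with a power saving, by Hölder's inequality for the number of
the ordered factorizations. The starting theorem `MonomialIdeals` of this problem bounds the number of the exceptional
points `x` with `H_K(x) ^ (n + 1) ≤ X` by `X ^ (s + ε)` (in the form `MonomialWindows.count`).
-/

set_option autoImplicit false

namespace Pool.Agent.Results.MP_8865d3_nt.CommonFactors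

open NumberField IsDedekindDomain LinearAlgebra.Projectivization
open MonomialIdeals (lin baseHeight height proximity logDisc exponent exceptional)
open MonomialWindows (count expo_nonneg)
open Pool.Agent.N733.TG (LM Expanding lm_totient lm_sigma expanding_pow)
open Pool.Agent.U536.CF (Common common_windows common_of_dvd common_order)

/-- for all `x ∈ ℙ^n(K)` off the hyperplanes with `|H_K(x) ^ (n + 1) - G v| ≤ v ^ θ`, all `m ≥ 1`, all points `y` of `X_m` above
`x`, over any number field `L`, all monomial ideals `I` and all finite sets `S` of primes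
`(κ m - q) h(y) + ∑_{v ∈ S ∪ {∞}} (λ_I - λ_{I⁻})(y, v) ≤ d(L) + ∑_{p ∈ S} log p + c₀` -/
def Near (K : Type) [Field K] [NumberField K] (n q : ℕ) (a : Fin q → Fin (n + 1) → K) (κ c₀ : ℝ) (G : ℕ → ℝ) (θ : ℝ)
    (v : ℕ) : Prop :=
  ∀ x : ℙ K (Fin (n + 1) → K), (∀ i, lin (a i) x.rep ≠ 0) → |x.mulHeight ^ (n + 1) - G v| ≤ (v : ℝ) ^ θ →
    ∀ (m : ℕ) (L : Type) [Field L] [NumberField L] [Algebra K L] (y : Fin q → L) (t : L)
      (I : Finset (Fin q → ℕ)) (S : Finset ℕ), 1 ≤ m → t ≠ 0 →
      (∀ i, y i ^ m = t * algebraMap K L (lin (a i) x.rep)) → I.Nonempty → (∀ p ∈ S, p.Prime) →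
        (κ * m - q) * height y + proximity S y I ≤ logDisc L + ∑ p ∈ S, Real.log p + c₀

lemma near_of {K : Type} [Field K] [NumberField K] {n q : ℕ} {a : Fin q → Fin (n + 1) → K} {κ c₀ θ : ℝ} {G : ℕ → ℝ} {v : ℕ}
    (h : ∀ t ∈ (⋃ B : ℝ, exceptional a κ c₀ B), ¬ |t.mulHeight ^ (n + 1) - G v| ≤ (v : ℝ) ^ θ) :
    Near K n q a κ c₀ G θ v := by
  intro x hx hw m L _ _ _ y t I S hm ht hy hI hS
  by_contra hcon
  push Not at hcon
  exact h x (Set.mem_iUnion.2 ⟨Real.exp (baseHeight x), hx, le_rfl, m, L, _, _, _, y, t, I, S, hm, ht, hy, hI, hS, hcon⟩) hw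

/-- **Vojta's conjecture with multiplier ideals on Fermat intersections above all points with height near all integers
with a large common factor with a value of a multiplicative function.** Let `f` be multiplicative and positive, of at
most polynomial growth, with `f p ≤ M p` at the large primes, and injective there. Let `G` have steps `≥ a > 0` and
growth at most `v^d`. Let `b < 1` and `0 ≤ c < 2 b - 1`, `κ ≥ 0`, `c₀` real, `θ ≥ 0` and `d s + θ < ρ ≤ 1`. For all
large `N`, for all `m ≤ N` but `N exp (-(log N)^c)`, the property `Near` holds at EVERY integer `w ≥ exp ((log N)^b)`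
with `gcd(w, f(m)) ≥ w^ρ`. All divisors `w ≥ exp ((log N)^b)` of `f(m)` are such integers `w`, and for Euler's
function the orders `≥ exp ((log N)^b)` of the units modulo `m`. Euler's function and the sum of the divisors are
examples of `f`, and `α v^d` with `α > 0`, `d ≥ 1` is an example of `G`. -/
theorem result :
    (∀ f : ℕ → ℕ, LM f → ∀ (G : ℕ → ℝ) (d : ℝ), Expanding G d → ∀ (K : Type) [Field K] [NumberField K] (n q : ℕ) (a : Fin q → Fin (n + 1) → K) (κ c₀ : ℝ)
      (θ ρ b c : ℝ), 1 ≤ n → n + 1 ≤ q →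
      (∀ I : Finset (Fin q), I.card = n + 1 → LinearIndependent K (fun i : I => a i)) → 0 ≤ κ → 0 ≤ θ → d * (exponent n q κ / (n + 1)) + θ < ρ → ρ ≤ 1 → b < 1 → 0 ≤ c → c < 2 * b - 1 →
      ∃ N₀ : ℕ, ∀ N : ℕ, N₀ ≤ N →
        ({m : ℕ | 1 ≤ m ∧ m ≤ N ∧ ¬ ∀ w : ℕ, Common f b ρ N m w → Near K n q a κ c₀ G θ w}.ncard : ℝ) ≤
          N * Real.exp (-(Real.log N ^ c))) ∧
    (LM Nat.totient ∧ LM (fun m => ∑ d ∈ m.divisors, d)) ∧
    (∀ α d : ℝ, 0 < α → 1 ≤ d → Expanding (fun v => α * (v : ℝ) ^ d) d) ∧
    (∀ (f : ℕ → ℕ) (b ρ : ℝ) (N m w : ℕ), ρ ≤ 1 → Real.exp (Real.log N ^ b) ≤ (w : ℝ) → w ∣ f m → Common f b ρ N m w) ∧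
    ∀ (b ρ : ℝ) (N m : ℕ), ρ ≤ 1 → ∀ x : (ZMod m)ˣ, Real.exp (Real.log N ^ b) ≤ (orderOf x : ℝ) →
      Common Nat.totient b ρ N m (orderOf x) := by
  refine ⟨?_, ⟨lm_totient, lm_sigma⟩, fun α d hα hd => expanding_pow hα hd, fun f b ρ N m w hρ hw hd => common_of_dvd hρ hw hd,
    fun b ρ N m hρ x hx => common_order hρ x hx⟩
  intro f hf G d hG K _ _ n q a κ c₀ θ ρ b c hn hq ha hκ hθ h1 hρ hb hc hcb
  obtain ⟨N₀, hN₀⟩ := common_windows (⋃ B : ℝ, exceptional a κ c₀ B) (fun x => x.mulHeight ^ (n + 1)) hf hG (s := (exponent n q κ / (n + 1))) (div_nonneg (expo_nonneg hn hq hκ) (by positivity)) hθ h1 hρ hb hc hcb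
    (fun ε hε => count K hn hq a ha κ c₀ ε hκ hε)
  refine ⟨N₀, fun N hN => le_trans (Nat.cast_le.2 (Set.ncard_le_ncard ?_ ?_)) (hN₀ N hN)⟩
  · rintro m ⟨h2, h3, h4⟩
    push Not at h4
    obtain ⟨w, hw, h5⟩ := h4
    refine ⟨h2, h3, w, hw, ?_⟩
    by_contra hcon
    push Not at hcon
    exact h5 (near_of (fun t ht => not_le.2 (hcon t ht)))
  · exact (Set.finite_Icc 1 N).subset fun m hm => ⟨hm.1, hm.2.1⟩

end Pool.Agent.Results.MP_8865d3_nt.CommonFactors
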