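import Pool.Agent.U449.BV.E
import Pool.Agent.Results.MP_8865d3_nt.MonomialWindows

/-!
# Vojta's conjecture with multiplier ideals on Fermat intersections above all points with height near `f(a, b) + g(a) + h(b)`, `a`, `b` in arbitrary sets

Let `a_0, …, a_{q-1}` be linear forms in `n + 1` variables over a number field `K`, any `n + 1` of them linearly
independent, `κ ≥ 0`, `c₀` real and `s = exponent(n, q, κ) / (n + 1)`, the smaller one of `κ (1 - binom(q - n, n + 1)
/ binom(q, n + 1)) / (n + 1)` and `1 - n (q - κ) / (q (q - 1))`; it is less than one for `κ < q`. The points `(y_i)`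
with `(y_i ^ m) = (a_i(x))` for some `x ∈ ℙ^n` form the Fermat intersection `X_m`. Let `f(x, y)` be an integer
polynomial with a monomial which contains both variables, `A`, `B` ARBITRARY finite sets of at least `X ^ δ` integers,
and `g`, `h` ARBITRARY real functions such that `F(a, b) = f(a, b) + g(a) + h(b)` has absolute value at most `X` on `A
× B`. Let `θ ≥ 0` and `s + θ < δ`. For all the pairs `(a, b)`, apart from a proportion of at most `X ^ (-ρ)`: for ALL
points `x ∈ ℙ^n(K)` off the hyperplanes for which `H_K(x) ^ (n + 1)` differs from `F(a, b)` by at most `X ^ θ`, ALL `m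
≥ 1`, ALL points `P` of `X_m` above `x`, over any number field `L`, ALL monomial ideals `I` and ALL finite sets `S` of
primes `(κ m - q) h(P) + ∑_{v ∈ S ∪ {∞}} (λ_I - λ_{I⁻})(P, v) ≤ d(L) + ∑_{p ∈ S} log p + c₀`. The same holds for the
values of all functions `F(a, b)` of two variables with few coincidences (`Rare`); `ρ > 0` depends only on the
exponents and the degree of `f`.

Since `A`, `B`, `g` and `h` are arbitrary, the values have no arithmetic structure, and a value can be taken by very
many pairs. So the number of the exceptions does not give the result directly. Proof: the inequality of Cauchy and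
Schwarz; for most pairs `a, a'` the difference `F(a, b) - F(a', b)` is small for few `b` (`Pool.Agent.U449.BV`). The
starting theorem `MonomialIdeals` of this problem bounds the number of the exceptional points `x` with `H_K(x) ^ (n +
1) ≤ X` by `X ^ (s + ε)` (in the form `MonomialWindows.count`).
-/

set_option autoImplicit false

namespace Pool.Agent.Results.MP_8865d3_nt.MixedPolynomials

open NumberField IsDedekindDomain LinearAlgebra.Projectivization
open MonomialIdeals (lin baseHeight height proximity logDisc exponent exceptional)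
open MonomialWindows (count expo_nonneg)
open Pool.Agent.U449.BV (Rare OnProducts on_products_set polys)

/-- for all `x ∈ ℙ^n(K)` off the hyperplanes with `|H_K(x) ^ (n + 1) - x₀| ≤ W`, all `m ≥ 1`, all points `y` of `X_m` above
`x`, over any number field `L`, all monomial ideals `I` and all finite sets `S` of primes
`(κ m - q) h(y) + ∑_{v ∈ S ∪ {∞}} (λ_I - λ_{I⁻})(y, v) ≤ d(L) + ∑_{p ∈ S} log p + c₀` -/
def Near (K : Type) [Field K] [NumberField K] (n q : ℕ) (a : Fin q → Fin (n + 1) → K) (κ c₀ : ℝ) (W x₀ : ℝ) : Prop :=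
  ∀ x : ℙ K (Fin (n + 1) → K), (∀ i, lin (a i) x.rep ≠ 0) → |x.mulHeight ^ (n + 1) - x₀| ≤ W →
    ∀ (m : ℕ) (L : Type) [Field L] [NumberField L] [Algebra K L] (y : Fin q → L) (t : L)
      (I : Finset (Fin q → ℕ)) (S : Finset ℕ), 1 ≤ m → t ≠ 0 →
      (∀ i, y i ^ m = t * algebraMap K L (lin (a i) x.rep)) → I.Nonempty → (∀ p ∈ S, p.Prime) →
        (κ * m - q) * height y + proximity S y I ≤ logDisc L + ∑ p ∈ S, Real.log p + c₀

lemma near_of {K : Type} [Field K] [NumberField K] {n q : ℕ} {a : Fin q → Fin (n + 1) → K} {κ c₀ : ℝ} {W x₀ : ℝ}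
    (h : ∀ t ∈ (⋃ B : ℝ, exceptional a κ c₀ B), ¬ |t.mulHeight ^ (n + 1) - x₀| ≤ W) :
    Near K n q a κ c₀ W x₀ := by
  intro x hx hw m L _ _ _ y t I S hm ht hy hI hS
  by_contra hcon
  push Not at hcon
  exact h x (Set.mem_iUnion.2 ⟨Real.exp (baseHeight x), hx, le_rfl, m, L, _, _, _, y, t, I, S, hm, ht, hy, hI, hS, hcon⟩) hw

/-- **Theorem.** Let `κ ≥ 0`, `c₀` real and `θ ≥ 0`. The property `Near`, with windows of length `X ^ θ`, holds for almost
all values of functions of two variables with few coincidences, on arbitrary finite sets of at least `X ^ δ` elements,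
`s + θ < δ ≤ 1` (`OnProducts`). Coincidences are rare for `f(a, b) + g(a) + h(b)`, where `f` is any integer polynomial
with a monomial which contains both variables, and `g` and `h` are arbitrary real functions, on arbitrary finite sets
of integers. -/
theorem result :
    (∀ (K : Type) [Field K] [NumberField K] (n q : ℕ) (a : Fin q → Fin (n + 1) → K) (κ c₀ : ℝ) (θ : ℝ), 1 ≤ n → n + 1 ≤ q →
      (∀ I : Finset (Fin q), I.card = n + 1 → LinearIndependent K (fun i : I => a i)) → 0 ≤ κ → 0 ≤ θ →
      OnProducts ((exponent n q κ / (n + 1)) + θ) θ (Near K n q a κ c₀)) ∧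
    ∀ (d : ℕ) (f : MvPolynomial (Fin 2) ℤ), f.totalDegree ≤ d → (∃ m ∈ f.support, m 0 ≠ 0 ∧ m 1 ≠ 0) →
      ∀ (g h : ℤ → ℝ) (A B : Finset ℤ),
        Rare d A B (fun a b => ((MvPolynomial.eval ![a, b] f : ℤ) : ℝ) + g a + h b) := by
  refine ⟨?_, polys⟩
  intro K _ _ n q a κ c₀ θ hn hq ha hκ hθ
  refine (on_products_set (⋃ B : ℝ, exceptional a κ c₀ B) (fun x => x.mulHeight ^ (n + 1)) (s := (exponent n q κ / (n + 1))) (κ := θ) (div_nonneg (expo_nonneg hn hq hκ) (by positivity)) hθ
    (fun ε hε => count K hn hq a ha κ c₀ ε hκ hε)).mono fun W x₀ _ hg => ?_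
  exact near_of (fun t ht hw => hg t hw ht)

end Pool.Agent.Results.MP_8865d3_nt.MixedPolynomials
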