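import Pool.Agent.U405.RS.F2
import Pool.Agent.Results.MP_8865d3_nt.MonomialWindows

/-!
# Vojta's conjecture with multiplier ideals on Fermat intersections above all points with height near a value of `f` at thin sets of arguments

Let `a_0, …, a_{q-1}` be linear forms in `n + 1` variables over a number field `K`, any `n + 1` of them linearly
independent, `κ ≥ 0`, `c₀` real and `s = exponent(n, q, κ) / (n + 1)`, the smaller one of `κ (1 - binom(q - n, n + 1)
/ binom(q, n + 1)) / (n + 1)` and `1 - n (q - κ) / (q (q - 1))`; it is less than one for `κ < q`. The points `(y_i)`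
with `(y_i ^ m) = (a_i(x))` for some `x ∈ ℙ^n` form the Fermat intersection `X_m`. Let `f` be a positive
multiplicative function of at most polynomial growth which for each `a ≥ 1` is injective at the powers `p ^ a` of the
large primes and at most `M p ^ a` there; for example Euler's function or the sum of the divisors. Let `G` have steps
bounded below by a positive constant and growth at most `v ^ d`, for example `α v ^ d` with `α > 0` and `d ≥ 1`. Let
`θ ≥ 0` and `e = d s + θ`. for ALL points `x ∈ ℙ^n(K)` off the hyperplanes for which `H_K(x) ^ (n + 1)` differs from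
`G (f v)` by at most `(f v) ^ θ`, ALL `m ≥ 1`, ALL points `P` of `X_m` above `x`, over any number field `L`, ALL
monomial ideals `I` and ALL finite sets `S` of primes `(κ m - q) h(P) + ∑_{v ∈ S ∪ {∞}} (λ_I - λ_{I⁻})(P, v) ≤ d(L) +
∑_{p ∈ S} log p + c₀`, for almost all `v` (with a saving of any power of the logarithm) in each of these sets:

* the values of any integer polynomial without repeated roots, of degree `< 1 / e`;
* the shifted primes `p + a`, `a` any integer, if `e < 1`;
* the intervals `(x, x + y]`, `x^τ ≤ y ≤ x`, for every `τ > e`, `τ ≤ 1`.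

For `κ = q - n - 1 - ε` the first term is `h_K(P) - ε m h(P)`. Proof. The tool `Pool.Agent.U405.RS` (weighted Rankin
method) shows that the values of `f` at almost all elements of these sets avoid every set with a power saving. The
starting theorem `MonomialIdeals` of this problem bounds the number of the exceptional points `x` with `H_K(x) ^ (n +
1) ≤ X` by `X ^ (s + ε)` (in the form `MonomialWindows.count`).
-/

set_option autoImplicit false

namespace Pool.Agent.Results.MP_8865d3_nt.SparseArguments

open NumberField IsDedekindDomain LinearAlgebra.Projectivization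
open MonomialIdeals (lin baseHeight height proximity logDisc exponent exceptional)
open MonomialWindows (count expo_nonneg)
open Pool.Agent.N733.TG (Expanding expanding_pow)
open Pool.Agent.U405.RS (PM Sparse sparse_set' examples)

/-- for all `x ∈ ℙ^n(K)` off the hyperplanes with `|H_K(x) ^ (n + 1) - G v| ≤ v ^ θ`, all `m ≥ 1`, all points `y` of `X_m` above
`x`, over any number field `L`, all monomial ideals `I` and all finite sets `S` of primes
`(κ m - q) h(y) + ∑_{v ∈ S ∪ {∞}} (λ_I - λ_{I⁻})(y, v) ≤ d(L) + ∑_{p ∈ S} log p + c₀` -/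
def Near (K : Type) [Field K] [NumberField K] (n q : ℕ) (a : Fin q → Fin (n + 1) → K) (κ c₀ : ℝ) (G : ℕ → ℝ) (θ : ℝ)
    (v : ℕ) : Prop :=
  ∀ x : ℙ K (Fin (n + 1) → K), (∀ i, lin (a i) x.rep ≠ 0) → |x.mulHeight ^ (n + 1) - G v| ≤ (v : ℝ) ^ θ →
    ∀ (m : ℕ) (L : Type) [Field L] [NumberField L] [Algebra K L] (y : Fin q → L) (t : L)
      (I : Finset (Fin q → ℕ)) (S : Finset ℕ), 1 ≤ m → t ≠ 0 →
      (∀ i, y i ^ m = t * algebraMap K L (lin (a i) x.rep)) → I.Nonempty → (∀ p ∈ S, p.Prime) →
        (κ * m - q) * height y + proximity S y I ≤ logDisc L + ∑ p ∈ S, Real.log p + c₀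

lemma near_of {K : Type} [Field K] [NumberField K] {n q : ℕ} {a : Fin q → Fin (n + 1) → K} {κ c₀ θ : ℝ} {G : ℕ → ℝ} {v : ℕ}
    (h : ∀ t ∈ (⋃ B : ℝ, exceptional a κ c₀ B), ¬ |t.mulHeight ^ (n + 1) - G v| ≤ (v : ℝ) ^ θ) :
    Near K n q a κ c₀ G θ v := by
  intro x hx hw m L _ _ _ y t I S hm ht hy hI hS
  by_contra hcon
  push Not at hcon
  exact h x (Set.mem_iUnion.2 ⟨Real.exp (baseHeight x), hx, le_rfl, m, L, _, _, _, y, t, I, S, hm, ht, hy, hI, hS, hcon⟩) hw

/-- **Vojta's conjecture with multiplier ideals on Fermat intersections above all points with height near the values of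
`f` at thin sets of arguments.** Let `f` be in the class `PM`, let `G` have steps `≥ const > 0` and growth at most `v
^ d`, `κ ≥ 0`, `c₀` real, `θ ≥ 0`. For every `U` the property `Near` holds in the sense `Sparse e f`, `e = d s + θ`:
with a saving of `(log x)^U` it holds at `f v` for almost all `v` among the positive values of every integer
polynomial without repeated roots of degree `< 1 / e`; among the shifted primes `p + a` for every `a`, if `e < 1`; and
in all intervals `(x, x + y]`, `x^τ ≤ y ≤ x`, `e < τ ≤ 1`. Euler's function, the sum of the divisors and the identity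
are in the class, and `α v^d` with `α > 0`, `d ≥ 1` is an example of `G`. -/
theorem result :
    (∀ f : ℕ → ℕ, PM f → ∀ (G : ℕ → ℝ) (d : ℝ), Expanding G d → ∀ (K : Type) [Field K] [NumberField K] (n q : ℕ) (a : Fin q → Fin (n + 1) → K) (κ c₀ : ℝ) (θ : ℝ),
      1 ≤ n → n + 1 ≤ q →
      (∀ I : Finset (Fin q), I.card = n + 1 → LinearIndependent K (fun i : I => a i)) → 0 ≤ κ → 0 ≤ θ → ∀ U : ℕ, Sparse (d * (exponent n q κ / (n + 1)) + θ) f (Near K n q a κ c₀ G θ) U) ∧
    (PM Nat.totient ∧ PM (fun m => ∑ d ∈ m.divisors, d) ∧ PM (fun m => m)) ∧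
    ∀ α d : ℝ, 0 < α → 1 ≤ d → Expanding (fun v => α * (v : ℝ) ^ d) d := by
  refine ⟨?_, examples, fun α d hα hd => expanding_pow hα hd⟩
  intro f hf G d hG K _ _ n q a κ c₀ θ hn hq ha hκ hθ U
  exact sparse_set' (⋃ B : ℝ, exceptional a κ c₀ B) (fun x => x.mulHeight ^ (n + 1)) hf hG (s := (exponent n q κ / (n + 1))) (div_nonneg (expo_nonneg hn hq hκ) (by positivity)) hθ rfl
    (fun ε hε => count K hn hq a ha κ c₀ ε hκ hε) _ U (fun v hv => near_of hv)

end Pool.Agent.Results.MP_8865d3_nt.SparseArguments
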